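import Mathlib
import Pool.Agent.Helper209.CX.C03
import Pool.Agent.Helper209.CX.K30
import Pool.Agent.Helper209.CX.K31

namespace Pool.Agent.Results.MP_95af1f_mp.AllDim
open MeasureTheory FourierTransform
open scoped ENNReal

/-- `ℝᵈ` with the Euclidean norm -/
def Rd (d : ℕ) : Type := EuclideanSpace ℝ (Fin d)

noncomputable instance (d : ℕ) : Norm (Rd d) :=
  (inferInstance : Norm (EuclideanSpace ℝ (Fin d)))

/-- `ℝᵈ` carries Lebesgue measure, Mathlib's `volume` -/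
noncomputable instance (d : ℕ) : MeasureSpace (Rd d) :=
  (inferInstance : MeasureSpace (EuclideanSpace ℝ (Fin d)))

/-- `L²(ℝᵈ; ℂ)` -/
def L2 (d : ℕ) : Type := Lp ℂ 2 (volume : Measure (Rd d))

noncomputable instance (d : ℕ) : AddCommGroup (L2 d) :=
  (inferInstance : AddCommGroup (Lp ℂ 2 (volume : Measure (Rd d))))

noncomputable instance (d : ℕ) : Module ℂ (L2 d) :=
  (inferInstance : Module ℂ (Lp ℂ 2 (volume : Measure (Rd d))))

/-- the function `u` -/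
noncomputable def fn {d : ℕ} (u : L2 d) : Rd d → ℂ :=
  ((show Lp ℂ 2 (volume : Measure (Rd d)) from u) : Rd d → ℂ)

/-- the unitary Fourier transform on `L²(E)`, `û(ξ) = ∫ e^{-2πi x·ξ} u(x) dx` -/
noncomputable def fourierE (E : Type) [NormedAddCommGroup E] [InnerProductSpace ℝ E]
    [FiniteDimensional ℝ E] [MeasurableSpace E] [BorelSpace E]
    (u : Lp ℂ 2 (volume : Measure E)) : Lp ℂ 2 (volume : Measure E) := 𝓕 u

/-- the unitary Fourier transform on `L²(ℝᵈ)` -/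
noncomputable def fourier {d : ℕ} (u : L2 d) : L2 d := fourierE (EuclideanSpace ℝ (Fin d)) u

/-- the function `û` -/
noncomputable def hat {d : ℕ} (u : L2 d) : Rd d → ℂ := fn (fourier u)

/-- `u ∈ H¹(ℝᵈ)`: `|ξ| û ∈ L²` -/
def InH1 {d : ℕ} (u : L2 d) : Prop := MemLp (fun ξ : Rd d => (‖ξ‖ : ℂ) * hat u ξ) 2 volume

/-- `∫ ∇u · conj ∇φ = ∫ (2π|ξ|)² û conj φ̂` -/
noncomputable def dirichlet {d : ℕ} (u φ : L2 d) : ℂ :=
  ∫ ξ : Rd d, (((2 * Real.pi * ‖ξ‖) ^ 2 : ℝ) : ℂ) * hat u ξ * (starRingEnd ℂ) (hat φ ξ)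

/-- `V u conj φ` -/
noncomputable def potential {d : ℕ} (V : Rd d → ℂ) (u φ : L2 d) (x : Rd d) : ℂ :=
  V x * fn u x * (starRingEnd ℂ) (fn φ x)

/-- the inner product `∫ f conj φ` -/
noncomputable def pairing {d : ℕ} (f φ : L2 d) : ℂ := ∫ x, fn f x * (starRingEnd ℂ) (fn φ x)

/-- `u ∈ D(H)` and `H u = f`, where `H = -h²Δ + V` is the m-sectorial operator of the form
`h² ∫ ∇u · conj ∇φ + ∫ V u conj φ` on `H¹(ℝᵈ)` -/
def IsHu {d : ℕ} (h : ℝ) (V : Rd d → ℂ) (u f : L2 d) : Prop :=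
  InH1 u ∧ ∀ φ : L2 d, InH1 φ → Integrable (potential V u φ) volume ∧
    ((h ^ 2 : ℝ) : ℂ) * dirichlet u φ + ∫ x, potential V u φ x = pairing f φ

/-- `u` is a generalised eigenvector for `E` (or `0`): `(H - E)ⁿ u = 0` for some `n` -/
def IsGen {d : ℕ} (h : ℝ) (V : Rd d → ℂ) (E : ℂ) (u : L2 d) : Prop :=
  ∃ (n : ℕ) (c : ℕ → L2 d), c 0 = u ∧ c n = 0 ∧ ∀ i < n, IsHu h V (c i) (c (i + 1) + E • c i)

/-- the generalised eigenspace of `E` -/
noncomputable def genSpace {d : ℕ} (h : ℝ) (V : Rd d → ℂ) (E : ℂ) : Submodule ℂ (L2 d) :=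
  Submodule.span ℂ {u | IsGen h V E u}

/-- the algebraic multiplicity of `E` (`0` if `E` is not an eigenvalue) -/
noncomputable def algMult {d : ℕ} (h : ℝ) (V : Rd d → ℂ) (E : ℂ) : ℕ :=
  Module.finrank ℂ (genSpace h V E)

/-- `δ(E)`, the distance from `E` to the half-line `[0,∞)` -/
noncomputable def delta (E : ℂ) : ℝ := Metric.infDist E {z : ℂ | 0 ≤ z.re ∧ z.im = 0}

/-- `∑_j |E_j|^{-σ} δ(E_j)^{γ+σ}`, each `E` counted with its algebraic multiplicity -/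
noncomputable def eigSum {d : ℕ} (h : ℝ) (V : Rd d → ℂ) (γ σ : ℝ) : ℝ≥0∞ :=
  ∑' E : ℂ, (algMult h V E : ℝ≥0∞) * ENNReal.ofReal (‖E‖ ^ (-σ) * delta E ^ (γ + σ))

theorem result (d : ℕ) (hd : 1 ≤ d) (γ σ : ℝ) (hγ : 1 / 2 < γ) (hγ1 : γ < 1)
    (hσ : (d : ℝ) / 2 < σ) :
    ∃ C : ℝ, 0 < C ∧ ∀ (h : ℝ) (V : Rd d → ℂ), 0 < h →
      MemLp V (ENNReal.ofReal (γ + d / 2)) volume →
      (∀ E : ℂ, 0 < delta E → Module.Finite ℂ (genSpace h V E)) ∧
      eigSum h V γ σ ≤ ENNReal.ofReal (C * h ^ (-(d : ℝ)) * ∫ x, ‖V x‖ ^ (γ + d / 2)) := by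
  obtain ⟨C, hC, H⟩ := Helper209.CX.final_D d hd γ σ hγ hγ1 hσ
  refine ⟨C, hC, ?_⟩
  intro h V hh hV
  let R : Submodule ℂ (L2 d × L2 d) :=
    { carrier := {p | Helper209.CX.IsHu h V p.1 p.2}
      add_mem' := fun {a b} ha hb => Helper209.CX.K31.isHu_add h V a.1 b.1 a.2 b.2 ha hb
      zero_mem' := Helper209.CX.K31.isHu_zero_zero h V
      smul_mem' := fun c a ha => Helper209.CX.K31.isHu_smul h V c a.1 a.2 ha }
  have hR : ∀ f : L2 d, ((0 : L2 d), f) ∈ R → f = 0 := fun f hf =>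
    Helper209.CX.K31.isHu_zero h V f hf
  choose G hG using fun E => Helper209.CX.K30.gen_submodule R E
  have hspan : ∀ E, genSpace h V E = G E := by
    intro E
    have : {u | IsGen h V E u} = (G E : Set (L2 d)) := by
      ext u
      exact (hG E u).symm
    rw [genSpace, this, Submodule.span_eq]
  have key := Helper209.CX.K30.gen_bound R hR (fun E => ‖E‖ ^ (-σ) * delta E ^ (γ + σ))
    (fun E => mul_nonneg (Real.rpow_nonneg (norm_nonneg _) _)
      (Real.rpow_nonneg Metric.infDist_nonneg _))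
    (C * h ^ (-(d : ℝ)) * ∫ x, ‖V x‖ ^ (γ + d / 2))
    (fun N u A hli hu => H h hh V hV N u A hli hu) G hG
  refine ⟨fun E hE => ?_, ?_⟩
  · rw [hspan]
    refine key.1 E ?_
    have hE0 : E ≠ 0 := by
      rintro rfl
      have : delta 0 = 0 := Metric.infDist_zero_of_mem (by simp)
      exact absurd hE (by rw [this]; exact lt_irrefl 0)
    exact mul_pos (Real.rpow_pos_of_pos (norm_pos_iff.2 hE0) _) (Real.rpow_pos_of_pos hE _)
  · have hm : ∀ E, algMult h V E = Module.finrank ℂ (G E) := fun E => by rw [algMult, hspan]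
    unfold eigSum
    simp only [hm]
    exact key.2

end Pool.Agent.Results.MP_95af1f_mp.AllDim
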