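import Mathlib
import Pool.Agent.Helper209.CX.B03

namespace Pool.Agent.Results.MP_95af1f_mp.OneDim
open MeasureTheory

/-- `δ(E)`, the distance from `E` to the half-line `[0,∞)` -/
noncomputable def delta (E : ℂ) : ℝ := Metric.infDist E {z : ℂ | 0 ≤ z.re ∧ z.im = 0}

/-- `u` is in the domain of `H = -h² d²/dx² + V` in `L²(ℝ)` and `H u = f`: `u ∈ L²` is absolutely
continuous with derivative `g ∈ L²`, and `g` is absolutely continuous with `-h² g' + V u = f`
(both derivatives written in integral form). -/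
def IsHu (h : ℝ) (V u f : ℝ → ℂ) : Prop :=
  MemLp u 2 volume ∧ ∃ g : ℝ → ℂ, MemLp g 2 volume ∧
    (∀ x y : ℝ, u y - u x = ∫ t in x..y, g t) ∧
    ∀ x y : ℝ, ((h ^ 2 : ℝ) : ℂ) * (g y - g x) = ∫ t in x..y, (V t * u t - f t)

theorem result (γ σ : ℝ) (hγ : 1 / 2 < γ) (hγ1 : γ < 1) (hσ : 1 / 2 < σ) :
    ∃ C : ℝ, 0 < C ∧ ∀ h : ℝ, 0 < h → ∀ V : ℝ → ℂ,
      MemLp V (ENNReal.ofReal (γ + 1 / 2)) volume →
      ∀ (N : ℕ) (u : Fin N → ℝ → ℂ) (A : Matrix (Fin N) (Fin N) ℂ),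
        LinearIndependent ℂ u →
        (∀ j, IsHu h V (u j) (fun x => ∑ l, A l j * u l x)) →
        (A.charpoly.roots.map (fun E => ‖E‖ ^ (-σ) * delta E ^ (γ + σ))).sum ≤
          C * h⁻¹ * ∫ x, ‖V x‖ ^ (γ + 1 / 2) := by
  obtain ⟨C, hC, hfin⟩ := Helper209.CX.final_Q γ σ hγ hγ1 hσ
  refine ⟨C, hC, ?_⟩
  intro h hh V hV N u A hli hu
  have hp : 1 < γ + 1 / 2 := by linarith
  set p : ℝ := γ + 1 / 2 with hpdef
  have hp0 : 0 < p := by linarith
  -- measurable representative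
  set V' : ℝ → ℂ := hV.1.aemeasurable.mk V with hV'
  have hV'm : Measurable V' := hV.1.aemeasurable.measurable_mk
  have hVV' : V =ᵐ[volume] V' := hV.1.aemeasurable.ae_eq_mk
  have hVp : Integrable (fun x => ‖V x‖ ^ p) := by
    have := hV.integrable_norm_rpow (by simpa using hp0) ENNReal.ofReal_ne_top
    rwa [ENNReal.toReal_ofReal hp0.le] at this
  set c : ℝ := (h ^ 2)⁻¹ with hc
  have hc0 : 0 < c := by positivity
  have hcn : ((h ^ 2 : ℝ) : ℂ) * ((c : ℝ) : ℂ) = 1 := by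
    rw [← Complex.ofReal_mul, hc, mul_inv_cancel₀ (by positivity)]; simp
  set V1 : ℝ → ℂ := fun x => (c : ℂ) * V' x with hV1
  have hV1m : Measurable V1 := by fun_prop
  have hV1n : ∀ x, ‖V1 x‖ ^ p = c ^ p * ‖V' x‖ ^ p := by
    intro x
    simp only [hV1, norm_mul, Complex.norm_real, Real.norm_eq_abs, abs_of_pos hc0]
    rw [Real.mul_rpow hc0.le (norm_nonneg _)]
  have hV'p : Integrable (fun x => ‖V' x‖ ^ p) := by
    refine hVp.congr ?_
    filter_upwards [hVV'] with x hx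
    rw [hx]
  have hV1p : Integrable (fun x => ‖V1 x‖ ^ p) := by
    refine (hV'p.const_mul (c ^ p)).congr (Filter.Eventually.of_forall fun x => ?_)
    simp only [hV1n]
  have hV1i : ∫ x, ‖V1 x‖ ^ p = c ^ p * ∫ x, ‖V x‖ ^ p := by
    rw [← integral_const_mul]
    refine integral_congr_ae ?_
    filter_upwards [hVV'] with x hx
    rw [hV1n, hx]
  -- data
  choose hu2 g hg hug heq using hu
  have heq1 : ∀ j, ∀ x y : ℝ, g j y - g j x =
      ∫ t in x..y, (V1 t * u j t - ∑ l, ((c : ℂ) • A) l j * u l t) := by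
    intro j x y
    have h1 := heq j x y
    have h2 : g j y - g j x = (c : ℂ) * ∫ t in x..y, (V t * u j t - ∑ l, A l j * u l t) := by
      rw [← h1, ← mul_assoc, mul_comm (c : ℂ), hcn, one_mul]
    rw [h2, ← intervalIntegral.integral_const_mul]
    refine intervalIntegral.integral_congr_ae ?_
    filter_upwards [hVV'] with t ht _
    simp only [hV1, Matrix.smul_apply, smul_eq_mul]
    rw [ht, mul_sub, Finset.mul_sum]
    congr 1
    · ring
    · exact Finset.sum_congr rfl fun l _ => by ring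
  set S : ℝ := (A.charpoly.roots.map (fun E => ‖E‖ ^ (-σ) * delta E ^ (γ + σ))).sum with hS
  have hcC : (c : ℂ) ≠ 0 := by exact_mod_cast hc0.ne'
  have hscale : (((c : ℂ) • A).charpoly.roots.map (fun E => ‖E‖ ^ (-σ) *
      (Metric.infDist E {z : ℂ | 0 ≤ z.re ∧ z.im = 0}) ^ (γ + σ))).sum = c ^ γ * S := by
    rw [Helper209.CX.K14.d14_scale N A c hcC, Multiset.map_map, hS, ← Multiset.sum_map_mul_left]
    congr 1
    refine Multiset.map_congr rfl fun E _ => ?_
    simp only [Function.comp, delta]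
    rw [Helper209.CX.K14.d14_infDist c hc0 E, norm_mul, Complex.norm_real, Real.norm_eq_abs,
      abs_of_pos hc0, Real.mul_rpow hc0.le (norm_nonneg _),
      Real.mul_rpow hc0.le Metric.infDist_nonneg]
    have : c ^ γ = c ^ (-σ) * c ^ (γ + σ) := by
      rw [← Real.rpow_add hc0]; congr 1; ring
    rw [this]; ring
  have key : ∀ δ' : ℝ, 0 < δ' → c ^ γ * S ≤ C * (c ^ p * (∫ x, ‖V x‖ ^ p) + δ') := by
    intro δ' hδ'
    obtain ⟨ε, hε, hint, hle⟩ := Helper209.CX.A22.cx_eps p hp V1 hV1m hV1p δ' hδ'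
    have := hfin (fun x => ‖V1 x‖ + ε * Real.exp (-x ^ 2)) (by fun_prop)
      (fun x => by positivity) hint V1 hV1m (fun x => by
        have : 0 < ε * Real.exp (-x ^ 2) := by positivity
        linarith) N u g hu2 hg hug hli ((c : ℂ) • A) heq1
    rw [hscale] at this
    refine this.trans ?_
    rw [← hV1i]
    exact mul_le_mul_of_nonneg_left hle hC.le
  have key2 : c ^ γ * S ≤ C * (c ^ p * (∫ x, ‖V x‖ ^ p)) := by
    refine le_of_forall_pos_le_add fun η hη => ?_
    have := key (η / C) (by positivity)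
    rw [mul_add, mul_div_cancel₀ _ hC.ne'] at this
    exact this
  have hcγ : 0 < c ^ γ := Real.rpow_pos_of_pos hc0 _
  have hcp : c ^ p = c ^ γ * h⁻¹ := by
    have : h⁻¹ = c ^ (1 / 2 : ℝ) := by
      rw [hc, ← Real.sqrt_eq_rpow, Real.sqrt_inv, Real.sqrt_sq hh.le]
    rw [this, ← Real.rpow_add hc0]
  have : c ^ γ * S ≤ c ^ γ * (C * h⁻¹ * ∫ x, ‖V x‖ ^ p) := by
    refine key2.trans (le_of_eq ?_)
    rw [hcp]; ring
  exact le_of_mul_le_mul_left this hcγ

end Pool.Agent.Results.MP_95af1f_mp.OneDim
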